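import Pool.Agent.Q202.EC.Conn

/-!
# The essential spectrum of an operator with only finite-codimensional invariant subspaces

Let `H` be an infinite-dimensional complex Hilbert space and `T` a bounded operator on `H` all of
whose nontrivial closed invariant subspaces have finite codimension. Then the essential spectrum
of `T` (the spectrum in the Calkin algebra) is connected.

Outline. `T` has no eigenvalues. Take `x ≠ 0`, let `M` be the closed cyclic subspace of `x` and
`S = T|M`. The essential spectrum of `T` is the set `K` of all `l` for which `S - l` is not bounded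
below. The spectrum of `S` is `K ∪ G` where `G` is the set of the bounded point evaluations: those
`l` for which `(a, y) ↦ a x + (S - l) y` is bounded below. `G` is open, and by the maximum principle
for vector polynomials a bounded open set with frontier in `G` lies in `G`. If `K` is the union of
two disjoint nonempty closed sets, a continuous real function `f` with `f = 0` near one and `f = 1`
near the other defines the circle valued function which is `exp (2 π i f)` on `G` and `1` off `G`;
its continuous logarithm vanishes off `G` by the property of `G`, and it corrects `f` to a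
continuous function which is integer valued on `K ∪ G`. So the spectrum of `S` is disconnected, and
the Riesz idempotents (here Cauchy-Green integrals of the resolvent) give nonzero operators `P`,
`Q` commuting with `S` with `P Q = 0`. Then `ker Q` has finite codimension, so the range of `Q` is a
finite-dimensional nonzero invariant subspace, which is impossible.
-/

set_option autoImplicit false
set_option linter.deprecated false
set_option linter.unusedSectionVars false

open Set Filter Topology Complex Polynomial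

namespace Pool.Agent.Results.MP_15dca6_an.EssentialSpectrumConnected

variable {H : Type*} [NormedAddCommGroup H] [InnerProductSpace ℂ H] [CompleteSpace H]

/-- The class `Q(H)`: every nontrivial closed invariant subspace of `T` has finite codimension. -/
def OnlyFiniteCodim (T : H →L[ℂ] H) : Prop :=
  ∀ M : Submodule ℂ H, IsClosed (M : Set H) → (∀ y ∈ M, T y ∈ M) → M ≠ ⊥ → M ≠ ⊤ →
    FiniteDimensional ℂ (H ⧸ M)

/-- The essential spectrum: the set of the complex numbers `l` for which `T - l` is not invertible
modulo the compact operators. -/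
def essentialSpectrum (T : H →L[ℂ] H) : Set ℂ :=
  {l | ¬ ∃ R : H →L[ℂ] H,
    IsCompactOperator (R * (T - l • (1 : H →L[ℂ] H)) - 1 : H →L[ℂ] H) ∧
    IsCompactOperator ((T - l • (1 : H →L[ℂ] H)) * R - 1 : H →L[ℂ] H)}

theorem compact_of_vanish (f : H →L[ℂ] H) (V : Submodule ℂ H) (hV : IsClosed (V : Set H))
    (hfin : FiniteDimensional ℂ (H ⧸ V)) (hf : ∀ v ∈ V, f v = 0) : IsCompactOperator f := by
  have : CompleteSpace V := hV.completeSpace_coe
  have : FiniteDimensional ℂ Vᗮ :=
    (Submodule.quotientEquivOfIsCompl V Vᗮ V.isCompl_orthogonal_of_hasOrthogonalProjection).finiteDimensional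
  have : ProperSpace Vᗮ := FiniteDimensional.proper ℂ Vᗮ
  have h1 : f = (f.comp Vᗮ.subtypeL).comp (Vᗮ.orthogonalProjection) := by
    ext y
    have h2 : y = V.starProjection y + Vᗮ.starProjection y :=
      (V.starProjection_add_starProjection_orthogonal y).symm
    conv_lhs => rw [h2]
    rw [map_add, hf _ (V.starProjection_apply_mem y), zero_add]
    rfl
  rw [h1]
  exact (isCompactOperator_of_locallyCompactSpace_rng (f.comp Vᗮ.subtypeL)).comp_clm _

theorem bounded_below_of_parametrix {T R : H →L[ℂ] H} {l : ℂ}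
    (hR : IsCompactOperator (R * (T - l • (1 : H →L[ℂ] H)) - 1 : H →L[ℂ] H))
    (hinj : ∀ y, T y = l • y → y = 0) :
    ∃ c : ℝ, 0 < c ∧ ∀ y : H, c * ‖y‖ ≤ ‖T y - l • y‖ := by
  by_contra hcon
  push Not at hcon
  set B : H →L[ℂ] H := T - l • (1 : H →L[ℂ] H) with hB
  have hBy : ∀ y, B y = T y - l • y := by intro y; simp [hB]
  have h1 : ∀ n : ℕ, ∃ y : H, ‖y‖ = 1 ∧ ‖B y‖ < 1 / ((n : ℝ) + 1) := by
    intro n
    obtain ⟨y, hy⟩ := hcon (1 / ((n : ℝ) + 1)) (by positivity)
    have hy0 : ‖y‖ ≠ 0 := by
      intro h0
      rw [h0, mul_zero] at hy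
      have h00 : y = 0 := norm_eq_zero.1 h0
      rw [h00] at hy
      simp at hy
    have hyp : 0 < ‖y‖ := lt_of_le_of_ne (norm_nonneg _) (Ne.symm hy0)
    refine ⟨((‖y‖ : ℂ)⁻¹) • y, ?_, ?_⟩
    · rw [norm_smul, norm_inv, Complex.norm_real, norm_norm, inv_mul_cancel₀ hy0]
    · rw [map_smul, norm_smul, norm_inv, Complex.norm_real, norm_norm, hBy,
        inv_mul_lt_iff₀ hyp, mul_comm]
      exact hy
  choose y hy1 hy2 using h1
  have hB0 : Tendsto (fun n => B (y n)) atTop (𝓝 0) := by
    rw [tendsto_zero_iff_norm_tendsto_zero]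
    exact squeeze_zero (fun n => norm_nonneg _) (fun n => (hy2 n).le)
      tendsto_one_div_add_atTop_nhds_zero_nat
  have hcpt : IsCompact (closure ((R * B - 1 : H →L[ℂ] H) '' Metric.closedBall 0 1)) :=
    IsCompactOperator.isCompact_closure_image_closedBall (𝕜₁ := ℂ) (𝕜₂ := ℂ)
      (f := ((R * B - 1 : H →L[ℂ] H) : H →ₗ[ℂ] H)) hR 1
  have hmem : ∀ n, (R * B - 1 : H →L[ℂ] H) (y n) ∈
      closure ((R * B - 1 : H →L[ℂ] H) '' Metric.closedBall 0 1) := by
    intro n
    apply subset_closure
    exact mem_image_of_mem _ (by rw [mem_closedBall_zero_iff, hy1 n])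
  obtain ⟨z, -, φ, hφ, hz⟩ := hcpt.tendsto_subseq hmem
  have hφ' := hφ.tendsto_atTop
  have h3 : Tendsto (fun n => y (φ n)) atTop (𝓝 (-z)) := by
    have h4 : Tendsto (fun n => R (B (y (φ n)))) atTop (𝓝 0) := by
      have := (R.continuous.tendsto 0).comp (hB0.comp hφ')
      rw [map_zero] at this
      exact this
    have h5 : ∀ n, y (φ n) = R (B (y (φ n))) - (R * B - 1 : H →L[ℂ] H) (y (φ n)) := by
      intro n; simp
    have h6 := h4.sub hz
    rw [zero_sub] at h6
    refine h6.congr fun n => ?_
    exact (h5 n).symm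
  have h7 : B (-z) = 0 :=
    tendsto_nhds_unique ((B.continuous.tendsto _).comp h3) (hB0.comp hφ')
  have h8 : ‖-z‖ = 1 := by
    have : Tendsto (fun n => ‖y (φ n)‖) atTop (𝓝 ‖-z‖) := h3.norm
    simp only [hy1] at this
    exact (tendsto_nhds_unique this tendsto_const_nhds)
  have h9 : -z = 0 := by
    apply hinj
    rw [hBy] at h7
    exact sub_eq_zero.1 h7
  rw [h9, norm_zero] at h8
  exact zero_ne_one h8

theorem no_eigen (hinf : ¬ FiniteDimensional ℂ H) {T : H →L[ℂ] H} (hT : OnlyFiniteCodim T)
    (W : Submodule ℂ H) (hW : FiniteDimensional ℂ W) (hinv : ∀ y ∈ W, T y ∈ W) : W = ⊥ := by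
  by_contra h0
  have hcl : IsClosed (W : Set H) := W.closed_of_finiteDimensional
  have htop : W ≠ ⊤ := by
    rintro rfl
    exact hinf (Module.Finite.equiv (Submodule.topEquiv (R := ℂ) (M := H)))
  have := hT W hcl hinv h0 htop
  exact hinf (Module.Finite.of_submodule_quotient W)

theorem fd_quot_of_sup {V F : Submodule ℂ H} [FiniteDimensional ℂ F] (h : V ⊔ F = ⊤) :
    FiniteDimensional ℂ (H ⧸ V) := by
  refine Module.Finite.of_surjective (V.mkQ ∘ₗ F.subtype) ?_
  intro q
  obtain ⟨y, rfl⟩ := Submodule.Quotient.mk_surjective V q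
  have hy : y ∈ V ⊔ F := by rw [h]; trivial
  obtain ⟨v, hv, f, hf, rfl⟩ := Submodule.mem_sup.1 hy
  refine ⟨⟨f, hf⟩, ?_⟩
  simp only [LinearMap.comp_apply, Submodule.subtype_apply, Submodule.mkQ_apply,
    Submodule.Quotient.mk_add]
  rw [(Submodule.Quotient.mk_eq_zero V).2 hv, zero_add]

open Pool.Agent.Q202.EC

/-- **Theorem.** If every nontrivial closed invariant subspace of the bounded operator `T` on the
infinite-dimensional complex Hilbert space `H` has finite codimension, then the essential spectrum
of `T` is connected. -/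
theorem result (hinf : ¬ FiniteDimensional ℂ H) (T : H →L[ℂ] H) (hT : OnlyFiniteCodim T) :
    IsConnected (essentialSpectrum T) := by
  -- a nonzero vector
  obtain ⟨x, hx0⟩ : ∃ x : H, x ≠ 0 := by
    by_contra h0
    push Not at h0
    have : Subsingleton H := ⟨fun a b => by rw [h0 a, h0 b]⟩
    exact hinf inferInstance
  have heig : ∀ (l : ℂ) (y : H), T y = l • y → y = 0 := by
    intro l y hy
    have h1 := no_eigen hinf hT (Submodule.span ℂ {y}) inferInstance (by
      intro z hz
      obtain ⟨a, rfl⟩ := Submodule.mem_span_singleton.1 hz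
      rw [map_smul, hy]
      exact Submodule.smul_mem _ _ (Submodule.smul_mem _ _ (Submodule.mem_span_singleton_self y)))
    exact Submodule.span_singleton_eq_bot.1 h1
  -- the cyclic subspace
  set L : ℂ[X] →ₗ[ℂ] H :=
    (ContinuousLinearMap.apply ℂ H x : (H →L[ℂ] H) →ₗ[ℂ] H) ∘ₗ (aeval T).toLinearMap with hL
  have hLev : ∀ p, L p = ev T x p := fun p => rfl
  set M : Submodule ℂ H := (LinearMap.range L).topologicalClosure with hM
  have hMcl : IsClosed (M : Set H) := Submodule.isClosed_topologicalClosure _
  have hMr : ∀ p, ev T x p ∈ M := fun p => Submodule.le_topologicalClosure _ ⟨p, hLev p⟩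
  have hxM : x ∈ M := by
    have := hMr 1
    simpa [ev] using this
  have hMinv : ∀ y ∈ M, T y ∈ M := by
    intro y hy
    have hy' : y ∈ closure (LinearMap.range L : Set H) := hy
    have : T y ∈ closure (LinearMap.range L : Set H) := by
      refine map_mem_closure T.continuous hy' ?_
      rintro _ ⟨p, rfl⟩
      refine ⟨p * X, ?_⟩
      rw [hLev, hLev, ev_mul_X]
    exact this
  have hMbot : M ≠ ⊥ := by
    intro h0
    rw [h0, Submodule.mem_bot] at hxM
    exact hx0 hxM
  have hMfin : FiniteDimensional ℂ (H ⧸ M) := by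
    by_cases htop : M = ⊤
    · have : Subsingleton (H ⧸ M) := by
        rw [htop]; infer_instance
      infer_instance
    · exact hT M hMcl hMinv hMbot htop
  have : CompleteSpace M := hMcl.completeSpace_coe
  have hMnt : Nontrivial M := ⟨⟨⟨x, hxM⟩, 0, fun h => hx0 (congrArg Subtype.val h)⟩⟩
  -- the restriction
  set S : M →L[ℂ] M := (T.comp M.subtypeL).codRestrict M (fun y => hMinv y y.2) with hS
  have hSy : ∀ y : M, ((S y : M) : H) = T y := fun y => rfl
  set x' : M := ⟨x, hxM⟩ with hx'
  have hev : ∀ p : ℂ[X], ((ev S x' p : M) : H) = ev T x p := by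
    intro p
    induction p using Polynomial.induction_on with
    | C a => rw [ev_C, ev_C]; rfl
    | add p q hp hq => rw [ev_add, ev_add, ← hp, ← hq]; rfl
    | monomial n a h =>
      have : (C a * X ^ (n + 1) : ℂ[X]) = (C a * X ^ n) * X := by ring
      rw [this, ev_mul_X, ev_mul_X, hSy, h]
  have hdense : Dense (range (ev S x')) := by
    intro y
    rw [closure_subtype]
    have h1 : (Subtype.val '' range (ev S x') : Set H) = (LinearMap.range L : Set H) := by
      ext z
      constructor
      · rintro ⟨_, ⟨p, rfl⟩, rfl⟩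
        exact ⟨p, by rw [hLev, hev]⟩
      · rintro ⟨p, rfl⟩
        exact ⟨ev S x' p, ⟨p, rfl⟩, by rw [hev, hLev]⟩
    rw [h1]
    exact y.2
  -- no splitting
  have hns : NoSplit S := by
    intro Q P hQ hP hQP hQS hPS
    set W : Submodule ℂ H := (LinearMap.ker (Q : M →ₗ[ℂ] M)).map M.subtype with hW
    have hWcl : IsClosed (W : Set H) := by
      have h1 : IsClosed ((LinearMap.ker (Q : M →ₗ[ℂ] M) : Submodule ℂ M) : Set M) := Q.isClosed_ker
      have h2 := hMcl.isClosedEmbedding_subtypeVal.isClosedMap _ h1
      rw [hW, Submodule.map_coe]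
      exact h2
    have hWinv : ∀ y ∈ W, T y ∈ W := by
      rintro _ ⟨y, hy, rfl⟩
      refine ⟨S y, ?_, rfl⟩
      have hy' : Q y = 0 := hy
      have h3 : (Q * S) y = (S * Q) y := by rw [hQS]
      have h4 : Q (S y) = S (Q y) := h3
      change Q (S y) = 0
      rw [h4, hy', map_zero]
    have hWbot : W ≠ ⊥ := by
      intro h0
      apply hP
      ext1 y
      have h1 : ((P y : M) : H) ∈ W := by
        refine ⟨P y, ?_, rfl⟩
        have h2 : (Q * P) y = 0 := by rw [hQP]; rfl
        exact h2
      rw [h0, Submodule.mem_bot] at h1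
      exact Subtype.ext h1
    have hWtop : W ≠ ⊤ := by
      intro h0
      apply hQ
      ext1 y
      have h1 : (y : H) ∈ W := by rw [h0]; trivial
      obtain ⟨z, hz, hzy⟩ := h1
      have hzy' : z = y := Subtype.ext hzy
      rw [← hzy']
      exact hz
    have hWfin : FiniteDimensional ℂ (H ⧸ W) := hT W hWcl hWinv hWbot hWtop
    set f : M →ₗ[ℂ] (H ⧸ W) := W.mkQ ∘ₗ M.subtype with hf
    have hker : LinearMap.ker f = LinearMap.ker (Q : M →ₗ[ℂ] M) := by
      ext y
      rw [LinearMap.mem_ker]
      have h1 : f y = Submodule.Quotient.mk (y : H) := rfl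
      rw [h1, Submodule.Quotient.mk_eq_zero]
      constructor
      · rintro ⟨z, hz, hzy⟩
        have hzy' : z = y := Subtype.ext hzy
        rw [← hzy']
        exact hz
      · intro hy
        exact ⟨y, hy, rfl⟩
    have h1 : FiniteDimensional ℂ (M ⧸ LinearMap.ker f) := f.quotKerEquivRange.symm.finiteDimensional
    rw [hker] at h1
    have h2 : FiniteDimensional ℂ (LinearMap.range (Q : M →ₗ[ℂ] M)) :=
      (Q : M →ₗ[ℂ] M).quotKerEquivRange.finiteDimensional
    have h3 := no_eigen hinf hT ((LinearMap.range (Q : M →ₗ[ℂ] M)).map M.subtype)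
      (Module.Finite.map _ _) (by
      rintro _ ⟨_, ⟨y, rfl⟩, rfl⟩
      refine ⟨Q (S y), ⟨S y, rfl⟩, ?_⟩
      have h3 : (Q * S) y = (S * Q) y := by rw [hQS]
      have h4 : Q (S y) = S (Q y) := h3
      rw [h4]
      rfl)
    apply hQ
    ext1 y
    have h4 : ((Q y : M) : H) ∈ (LinearMap.range (Q : M →ₗ[ℂ] M)).map M.subtype :=
      ⟨Q y, ⟨y, rfl⟩, rfl⟩
    rw [h3, Submodule.mem_bot] at h4
    exact Subtype.ext h4
  -- the essential spectrum
  have hess : essentialSpectrum T = KK S := by
    apply Subset.antisymm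
    · intro l hl
      by_contra hlK
      apply hl
      simp only [KK, mem_setOf_eq, not_not] at hlK
      obtain ⟨c, hc, hlow⟩ := hlK
      set B : M →L[ℂ] H := T.comp M.subtypeL - l • M.subtypeL with hB
      have hBy : ∀ y : M, B y = T y - l • (y : H) := fun y => rfl
      have hBn : ∀ y : M, c * ‖y‖ ≤ ‖B y‖ := by
        intro y
        have h1 : B y = ((S y - l • y : M) : H) := rfl
        rw [h1]
        exact hlow y
      have hanti : AntilipschitzWith (Real.toNNReal c⁻¹) B := by
        refine AddMonoidHomClass.antilipschitz_of_bound _ fun y => ?_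
        rw [Real.coe_toNNReal _ (by positivity), inv_mul_eq_div, le_div_iff₀ hc, mul_comm]
        exact hBn y
      have hBcl : IsClosed (range B) := hanti.isClosed_range B.uniformContinuous
      obtain ⟨V, hV, e, he⟩ : ∃ V : Submodule ℂ H, V = LinearMap.range (B : M →ₗ[ℂ] H) ∧
          ∃ e : M ≃L[ℂ] V, ∀ m, (e m : H) = B m :=
        ⟨_, rfl, B.equivRange hanti.injective hBcl, fun m => rfl⟩
      have hVm : ∀ m : M, B m ∈ V := by
        intro m
        rw [hV]
        exact ⟨m, rfl⟩
      have hVcl : IsClosed (V : Set H) := by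
        have : (V : Set H) = range B := by rw [hV]; rfl
        rw [this]; exact hBcl
      have : CompleteSpace V := hVcl.completeSpace_coe
      -- `V` has finite codimension
      have : FiniteDimensional ℂ Mᗮ :=
        (Submodule.quotientEquivOfIsCompl M Mᗮ
          M.isCompl_orthogonal_of_hasOrthogonalProjection).finiteDimensional
      have hsup : V ⊔ (Submodule.span ℂ {x} ⊔ Mᗮ) = ⊤ := by
        rw [← sup_assoc]
        have h1 : M ≤ V ⊔ Submodule.span ℂ {x} := by
          have h2 : IsClosed ((V ⊔ Submodule.span ℂ {x} : Submodule ℂ H) : Set H) :=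
            Submodule.isClosed_sup_finiteDimensional _ _ hVcl
          refine Submodule.topologicalClosure_minimal _ ?_ h2
          rintro _ ⟨p, rfl⟩
          rw [hLev, dq_spec p l, ev_add, ev_C, ev_sub_mul]
          refine Submodule.add_mem _ ?_ ?_
          · exact Submodule.mem_sup_right
              (Submodule.smul_mem _ _ (Submodule.mem_span_singleton_self x))
          · exact Submodule.mem_sup_left (hVm ⟨ev T x (dq p l), hMr _⟩)
        have h3 : M ⊔ Mᗮ = ⊤ := Submodule.sup_orthogonal_of_hasOrthogonalProjection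
        rw [eq_top_iff, ← h3]
        exact sup_le_sup_right h1 _
      have hVfin : FiniteDimensional ℂ (H ⧸ V) := fd_quot_of_sup hsup
      refine ⟨M.subtypeL ∘L (e.symm : _ →L[ℂ] M) ∘L V.orthogonalProjection, ?_, ?_⟩
      · refine compact_of_vanish _ M hMcl hMfin ?_
        intro y hy
        have h1 : (T - l • (1 : H →L[ℂ] H)) y = B ⟨y, hy⟩ := rfl
        have h2 : V.orthogonalProjection (B ⟨y, hy⟩) = ⟨B ⟨y, hy⟩, hVm _⟩ :=
          V.orthogonalProjection_mem_subspace_eq_self ⟨B ⟨y, hy⟩, hVm _⟩
        have h3 : e.symm ⟨B ⟨y, hy⟩, hVm _⟩ = ⟨y, hy⟩ := by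
          rw [ContinuousLinearEquiv.symm_apply_eq]
          exact Subtype.ext (he _).symm
        have h4 : (M.subtypeL ∘L (e.symm : _ →L[ℂ] M) ∘L V.orthogonalProjection)
            ((T - l • (1 : H →L[ℂ] H)) y) = y := by
          rw [h1]
          change ((e.symm (V.orthogonalProjection (B ⟨y, hy⟩)) : M) : H) = y
          rw [h2, h3]
        change (M.subtypeL ∘L (e.symm : _ →L[ℂ] M) ∘L V.orthogonalProjection)
            ((T - l • (1 : H →L[ℂ] H)) y) - y = 0
        rw [h4, sub_self]
      · refine compact_of_vanish _ V hVcl hVfin ?_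
        intro y hy
        obtain ⟨m, rfl⟩ : ∃ m, B m = y := by
          rw [hV] at hy
          exact hy
        have h2 : V.orthogonalProjection (B m) = ⟨B m, hVm m⟩ :=
          V.orthogonalProjection_mem_subspace_eq_self ⟨B m, hVm m⟩
        have h3 : e.symm ⟨B m, hVm m⟩ = m := by
          rw [ContinuousLinearEquiv.symm_apply_eq]
          exact Subtype.ext (he _).symm
        change (T - l • (1 : H →L[ℂ] H)) ((e.symm (V.orthogonalProjection (B m)) : M) : H)
          - B m = 0
        rw [h2, h3]
        exact sub_self (B m)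
    · rintro l hl ⟨R, hR1, -⟩
      obtain ⟨c, hc, h⟩ := bounded_below_of_parametrix hR1 (heig l)
      apply hl
      exact ⟨c, hc, fun y => h y⟩
  rw [hess]
  exact ⟨KK_nonempty hdense, KK_preconnected hdense hns⟩

end Pool.Agent.Results.MP_15dca6_an.EssentialSpectrumConnected
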